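import Pool.Agent.helper62.K3.Defs

/-! Module P6A: the determinants `tri` on the space `KK`. -/

noncomputable section

namespace Pool.Agent.helper62.K3

/-- The integer version of `WW`. -/
def P6A_W (a b c : Fin 6) : ℤ :=
  (((b : ℕ) : ℤ) - ((a : ℕ) : ℤ)) * (((c : ℕ) : ℤ) - ((a : ℕ) : ℤ)) *
    (((c : ℕ) : ℤ) - ((b : ℕ) : ℤ)) *
    ∏ s ∈ ({a, b, c} : Finset (Fin 6)), ∏ r ∈ Finset.univ \ ({a, b, c} : Finset (Fin 6)),
      (((r : ℕ) : ℤ) - ((s : ℕ) : ℤ))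

/-- The coordinates of elements of `KK` in terms of the first three. -/
def P6A_M : Fin 6 → Fin 3 → ℤ :=
  ![![1, 0, 0], ![0, 1, 0], ![0, 0, 1], ![-10, -6, -3], ![15, 8, 3], ![-6, -3, -1]]

/-- Determinant of three rows of `P6A_M`. -/
def P6A_det (a b c : Fin 6) : ℤ :=
  P6A_M a 0 * (P6A_M b 1 * P6A_M c 2 - P6A_M c 1 * P6A_M b 2) -
    P6A_M b 0 * (P6A_M a 1 * P6A_M c 2 - P6A_M c 1 * P6A_M a 2) +
    P6A_M c 0 * (P6A_M a 1 * P6A_M b 2 - P6A_M b 1 * P6A_M a 2)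

theorem P6A_cast (a b c : Fin 6) : WW a b c = ((P6A_W a b c : ℤ) : ℂ) := by
  unfold WW P6A_W
  push_cast
  rfl

theorem P6A_dec : ∀ a b c : Fin 6, a ≠ b → a ≠ c → b ≠ c →
    P6A_W a b c * P6A_det a b c = P6A_W 0 1 2 := by
  decide +kernel

theorem P6A_dec_ne : ∀ a b c : Fin 6, a ≠ b → a ≠ c → b ≠ c → P6A_W a b c ≠ 0 := by
  decide +kernel

theorem P6A_row (t : Fin 6 → ℂ) (ht : t ∈ KK) (a : Fin 6) :
    t a = (P6A_M a 0 : ℂ) * t 0 + (P6A_M a 1 : ℂ) * t 1 + (P6A_M a 2 : ℂ) * t 2 := by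
  have h0 := ht 0
  have h1 := ht 1
  have h2 := ht 2
  simp only [Fin.sum_univ_six] at h0 h1 h2
  simp at h0 h1 h2
  fin_cases a
  · simp [P6A_M]
  · simp [P6A_M]
  · simp [P6A_M]
  · simp [P6A_M]
    linear_combination 10 * h0 - (9 / 2) * h1 + (1 / 2) * h2
  · simp [P6A_M]
    linear_combination (-15) * h0 + 8 * h1 - h2
  · simp [P6A_M]
    linear_combination 6 * h0 - (7 / 2) * h1 + (1 / 2) * h2

theorem P6A_tri (t u v : Fin 6 → ℂ) (ht : t ∈ KK) (hu : u ∈ KK) (hv : v ∈ KK) (a b c : Fin 6) :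
    tri t u v a b c = (P6A_det a b c : ℂ) * tri t u v 0 1 2 := by
  unfold tri P6A_det
  rw [P6A_row t ht a, P6A_row t ht b, P6A_row t ht c, P6A_row u hu a, P6A_row u hu b,
    P6A_row u hu c, P6A_row v hv a, P6A_row v hv b, P6A_row v hv c]
  push_cast
  ring

theorem P6A (t u v : Fin 6 → ℂ) (ht : t ∈ KK) (hu : u ∈ KK) (hv : v ∈ KK) (a b c : Fin 6)
    (hab : a ≠ b) (hac : a ≠ c) (hbc : b ≠ c) :
    WW a b c * tri t u v a b c = WW 0 1 2 * tri t u v 0 1 2 := by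
  rw [P6A_tri t u v ht hu hv a b c, P6A_cast, P6A_cast, ← P6A_dec a b c hab hac hbc]
  push_cast
  ring

theorem P6A_ne (a b c : Fin 6) (hab : a ≠ b) (hac : a ≠ c) (hbc : b ≠ c) : WW a b c ≠ 0 := by
  rw [P6A_cast]
  exact_mod_cast P6A_dec_ne a b c hab hac hbc

end Pool.Agent.helper62.K3
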