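import Pool.Agent.helper62.K3.Defs

/-! Module LE2: additivity of the Euler characteristic in a long exact sequence. -/

noncomputable section

namespace Pool.Agent.helper62.K3

theorem LE2 (A B C : ℕ → Type) [∀ n, AddCommGroup (A n)] [∀ n, Module (ZMod 2) (A n)]
    [∀ n, AddCommGroup (B n)] [∀ n, Module (ZMod 2) (B n)]
    [∀ n, AddCommGroup (C n)] [∀ n, Module (ZMod 2) (C n)]
    [∀ n, Module.Finite (ZMod 2) (A n)] [∀ n, Module.Finite (ZMod 2) (B n)]
    [∀ n, Module.Finite (ZMod 2) (C n)]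
    (i : ∀ n, A n →ₗ[ZMod 2] B n) (q : ∀ n, B n →ₗ[ZMod 2] C n)
    (δ : ∀ n, C n →ₗ[ZMod 2] A (n + 1))
    (h1 : ∀ n, LinearMap.range (i n) = LinearMap.ker (q n))
    (h2 : ∀ n, LinearMap.range (q n) = LinearMap.ker (δ n))
    (h3 : ∀ n, LinearMap.range (δ n) = LinearMap.ker (i (n + 1)))
    (hA : Subsingleton (A 0)) (D : ℕ) (hD : Subsingleton (A (D + 1))) :
    ∑ n ∈ Finset.range (D + 1), (-1 : ℤ) ^ (n + 1) * (Module.finrank (ZMod 2) (B n) : ℤ) =
      ∑ n ∈ Finset.range (D + 1), (-1 : ℤ) ^ (n + 1) * (Module.finrank (ZMod 2) (A n) : ℤ) +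
      ∑ n ∈ Finset.range (D + 1), (-1 : ℤ) ^ (n + 1) * (Module.finrank (ZMod 2) (C n) : ℤ) := by
  have : Fact (Nat.Prime 2) := ⟨Nat.prime_two⟩
  have hB : ∀ n, (Module.finrank (ZMod 2) (B n) : ℤ) =
      (Module.finrank (ZMod 2) (LinearMap.range (i n)) : ℤ) +
      (Module.finrank (ZMod 2) (LinearMap.range (q n)) : ℤ) := by
    intro n
    have := LinearMap.finrank_range_add_finrank_ker (q n)
    rw [← h1 n] at this
    omega
  have hC : ∀ n, (Module.finrank (ZMod 2) (C n) : ℤ) =
      (Module.finrank (ZMod 2) (LinearMap.range (q n)) : ℤ) +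
      (Module.finrank (ZMod 2) (LinearMap.range (δ n)) : ℤ) := by
    intro n
    have := LinearMap.finrank_range_add_finrank_ker (δ n)
    rw [← h2 n] at this
    omega
  have hA' : ∀ n, (Module.finrank (ZMod 2) (A (n + 1)) : ℤ) =
      (Module.finrank (ZMod 2) (LinearMap.range (δ n)) : ℤ) +
      (Module.finrank (ZMod 2) (LinearMap.range (i (n + 1))) : ℤ) := by
    intro n
    have := LinearMap.finrank_range_add_finrank_ker (i (n + 1))
    rw [← h3 n] at this
    omega
  have hA0 : Module.finrank (ZMod 2) (A 0) = 0 := Module.finrank_zero_of_subsingleton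
  have hi0 : Module.finrank (ZMod 2) (LinearMap.range (i 0)) = 0 := by
    have := LinearMap.finrank_range_le (i 0)
    omega
  have hδD : Module.finrank (ZMod 2) (LinearMap.range (δ D)) = 0 := by
    have h := hA' D
    have h0 : Module.finrank (ZMod 2) (A (D + 1)) = 0 := Module.finrank_zero_of_subsingleton
    rw [h0] at h
    have h4 : (0 : ℤ) ≤ (Module.finrank (ZMod 2) (LinearMap.range (i (D + 1))) : ℤ) :=
      Int.natCast_nonneg _
    have h5 : (0 : ℤ) ≤ (Module.finrank (ZMod 2) (LinearMap.range (δ D)) : ℤ) :=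
      Int.natCast_nonneg _
    push_cast at h
    omega
  have key : ∀ N : ℕ,
      ∑ n ∈ Finset.range (N + 1), (-1 : ℤ) ^ (n + 1) * (Module.finrank (ZMod 2) (B n) : ℤ) =
      ∑ n ∈ Finset.range (N + 1), (-1 : ℤ) ^ (n + 1) * (Module.finrank (ZMod 2) (A n) : ℤ) +
      ∑ n ∈ Finset.range (N + 1), (-1 : ℤ) ^ (n + 1) * (Module.finrank (ZMod 2) (C n) : ℤ) -
      (-1 : ℤ) ^ (N + 1) * (Module.finrank (ZMod 2) (LinearMap.range (δ N)) : ℤ) := by
    intro N
    induction N with
    | zero =>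
      simp only [zero_add, Finset.range_one, Finset.sum_singleton, pow_one]
      rw [hB 0, hC 0, hA0, hi0]
      push_cast
      ring
    | succ N ih =>
      rw [Finset.sum_range_succ, ih, Finset.sum_range_succ _ (N + 1),
        Finset.sum_range_succ _ (N + 1), hB (N + 1), hC (N + 1), hA' N]
      ring
  rw [key D, hδD]
  push_cast
  ring

end Pool.Agent.helper62.K3
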